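import Pool.Agent.Helper69.SHT.St

set_option autoImplicit false

namespace Pool.Agent.Helper71.SHT

open Finset Filter Pool.Agent.Helper82.CN Pool.Agent.Helper11.PV Pool.Agent.Helper69.VX
  Pool.Agent.Helper69.UX Pool.Agent.Helper69.SHT

private theorem ch_le_card {n : ℕ} (G : SimpleGraph (Fin n)) : ch G ≤ n := by
  unfold ch
  have h : G.Colorable n := by
    have := G.colorable_of_fintype
    rwa [Fintype.card_fin] at this
  exact_mod_cast ENat.toNat_le_of_le_natCast h.chromaticNumber_le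

theorem hFUP : StECL → StFUP := by
  intro hE p ε C hp0 hp1 hε hε2 hC
  obtain ⟨δ, hδ, n0, h⟩ := hE p ε C hp0 hp1 hε hε2 hC
  refine ⟨δ, hδ, max n0 1, fun n T th κ lam mu hn hW hP => ?_⟩
  have hn0 : n0 ≤ n := le_trans (le_max_left _ _) hn
  have hn1 : 1 ≤ n := le_trans (le_max_right _ _) hn
  have h1 := h n T th κ lam mu hn0 hW hP
  have hp1' : p ≤ 1 := by
    have : 0 < 1 / Real.exp 2 := by positivity
    linarith
  have hn1' : (1 : ℝ) ≤ n := by exact_mod_cast hn1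
  have hK : 0 ≤ KK T κ := by
    unfold KK
    refine Finset.sum_nonneg fun u hu => ?_
    rcases Nat.eq_zero_or_pos u with h0 | h0
    · rw [hP.zer u (Or.inl h0)]
    · rw [hP.eq u h0 (Nat.lt_succ_iff.1 (Finset.mem_range.1 hu))]
      unfold om
      have : 0 ≤ 1 - p := by linarith
      positivity
  have hth : 0 ≤ th + 3 * ε := by
    have := hW.2.1
    linarith
  have hpow : (1 : ℝ) ≤ (n : ℝ) ^ (th + 3 * ε) := Real.one_le_rpow hn1' hth
  have hle : fn p n ≤ (KK T κ + (n : ℝ) ^ (th + 3 * ε)) +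
      n * PP p (fun ω : Sym2 (Fin n) → Bool => KK T κ + (n : ℝ) ^ (th + 3 * ε) < ch (gr ω)) := by
    unfold fn PP
    rw [← EE_mul_left, ← EE_const (ι := Sym2 (Fin n)) p (KK T κ + (n : ℝ) ^ (th + 3 * ε)), ← EE_add]
    refine EE_mono hp0.le hp1' fun ω => ?_
    rw [EE_const]
    by_cases hc : KK T κ + (n : ℝ) ^ (th + 3 * ε) < ch (gr ω)
    · rw [if_pos hc, mul_one]
      have := ch_le_card (gr ω)
      linarith
    · rw [if_neg hc, mul_zero, add_zero]
      exact not_lt.1 hc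
  have h2 : (n : ℝ) * (n : ℝ) ^ (-(3 : ℝ)) ≤ 1 := by
    have h3 : (n : ℝ) * (n : ℝ) ^ (-(3 : ℝ)) = (n : ℝ) ^ (-(2 : ℝ)) := by
      have hpos : (0 : ℝ) < n := by linarith
      nth_rewrite 1 [← Real.rpow_one (n : ℝ)]
      rw [← Real.rpow_add hpos]
      norm_num
    rw [h3]
    exact Real.rpow_le_one_of_one_le_of_nonpos hn1' (by norm_num)
  have h4 : (n : ℝ) * PP p (fun ω : Sym2 (Fin n) → Bool =>
      KK T κ + (n : ℝ) ^ (th + 3 * ε) < ch (gr ω)) ≤ 1 :=
    le_trans (mul_le_mul_of_nonneg_left h1 (by linarith)) h2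
  linarith

end Pool.Agent.Helper71.SHT
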